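import Pool.Agent.Lib.MP_d89fb5_co.Conv

/-!
# Average degree `rk - 2` forces `k` disjoint cycles of length at least `r` (`r` even)
-/

set_option autoImplicit false

namespace Pool.Agent.Results.MP_d89fb5_co.DisjointLongCycles

open Finset Pool.Agent.MPd89fb5

universe u

/-- The average degree `2 |E| / |V|` of a finite graph. -/
noncomputable def averageDegree {V : Type u} (G : SimpleGraph V) : ℝ :=
  2 * (Nat.card G.edgeSet : ℝ) / (Nat.card V : ℝ)

/-- `G` contains `k` pairwise vertex-disjoint cycles, each of length at least `r`. -/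
def HasDisjointLongCycles {V : Type u} (G : SimpleGraph V) (k r : ℕ) : Prop :=
  ∃ c : Fin k → (Σ v : V, G.Walk v v), (∀ i, (c i).2.IsCycle ∧ r ≤ (c i).2.length) ∧
    ∀ i j, i ≠ j → ∀ v, v ∈ (c i).2.support → v ∉ (c j).2.support

private theorem main2 {V : Type} (k s : ℕ) (hk : 2 ≤ k) (hs : 3 ≤ s) [Fintype V]
    (G : SimpleGraph V) [DecidableRel G.Adj] (hV : 2 * s * k ≤ Fintype.card V)
    (hE : (2 * s * k - 2) * Fintype.card V ≤ 2 * G.edgeFinset.card) :
    HasDisjointLongCycles G k (2 * s) := by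
  classical
  have hE2 : E G univ univ = 2 * G.edgeFinset.card := by
    rw [← G.sum_degrees_eq_twice_card_edges]
    unfold E
    exact sum_congr rfl (fun v _ => dg_eq_degree G v)
  have hE3 : 2 * (s * k - 1) * (univ : Finset V).card ≤ E G univ univ := by
    rw [hE2, card_univ]
    have : 2 * (s * k - 1) = 2 * s * k - 2 := by
      have : 2 * s * k = 2 * (s * k) := by ring
      omega
    rw [this]; exact hE
  obtain ⟨P, hP⟩ := main s hs k hk (univ : Finset V).card G univ rfl (by rwa [card_univ]) hE3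
  have hcyc : ∀ S ∈ P, ∃ (u : V) (w : G.Walk u u), w.IsCycle ∧ 2 * s ≤ w.length ∧
      ∀ x, x ∈ w.support ↔ x ∈ S := by
    intro S hS
    obtain ⟨n, hn, hG⟩ := hP.good S hS
    obtain ⟨u, w, h1, h2, h3⟩ := GC_walk hG (by omega)
    exact ⟨u, w, h1, by omega, h3⟩
  let e : Fin k ≃ P := (P.equivFinOfCardEq hP.card).symm
  choose u w h1 h2 h3 using fun i : Fin k => hcyc (e i).1 (e i).2
  refine ⟨fun i => ⟨u i, w i⟩, fun i => ⟨h1 i, h2 i⟩, ?_⟩
  intro i j hij
  have hne : (e i).1 ≠ (e j).1 := fun h => hij (e.injective (Subtype.ext h))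
  have hd := hP.disj _ (e i).2 _ (e j).2 hne
  rw [Finset.disjoint_left] at hd
  intro x hx hx'
  exact hd ((h3 i x).1 hx) ((h3 j x).1 hx')

private theorem transfer {V : Type u} {W : Type} {G : SimpleGraph V} {H : SimpleGraph W}
    (φ : H ≃g G) {k r : ℕ} (h : HasDisjointLongCycles H k r) : HasDisjointLongCycles G k r := by
  obtain ⟨c, h1, h2⟩ := h
  refine ⟨fun i => ⟨φ (c i).1, (c i).2.map φ.toHom⟩, fun i => ⟨?_, ?_⟩, ?_⟩
  · exact (SimpleGraph.Walk.isCycle_map_iff_of_injective φ.injective).2 (h1 i).1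
  · show r ≤ ((c i).2.map φ.toHom).length
    rw [SimpleGraph.Walk.length_map]
    exact (h1 i).2
  · intro i j hij v hv hv'
    change v ∈ ((c i).2.map φ.toHom).support at hv
    change v ∈ ((c j).2.map φ.toHom).support at hv'
    rw [SimpleGraph.Walk.support_map, List.mem_map] at hv hv'
    obtain ⟨x, hx, rfl⟩ := hv
    obtain ⟨y, hy, hxy⟩ := hv'
    have : y = x := φ.injective hxy
    subst this
    exact h2 i j hij y hx hy

/-- **Theorem.** Let `k ≥ 2` and let `r ≥ 6` be even. Every finite graph with at least `rk` vertices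
and average degree at least `rk - 2` contains `k` pairwise vertex-disjoint cycles, each of length
at least `r`. -/
theorem result : ∀ k r : ℕ, 2 ≤ k → 6 ≤ r → Even r → ∀ (V : Type u) [Finite V]
    (G : SimpleGraph V), r * k ≤ Nat.card V → (r : ℝ) * k - 2 ≤ averageDegree G →
      HasDisjointLongCycles G k r := by
  intro k r hk hr hev V _ G hV hd
  classical
  obtain ⟨s, hs⟩ := hev
  have hr2 : r = 2 * s := by omega
  subst hr2
  obtain ⟨n, hn⟩ : ∃ n, Nat.card V = n := ⟨_, rfl⟩
  have e : V ≃ Fin n := (Finite.equivFin V).trans (finCongr hn)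
  let H : SimpleGraph (Fin n) := G.comap e.symm
  let φ : H ≃g G := SimpleGraph.Iso.comap e.symm G
  have hcard : H.edgeFinset.card = Nat.card G.edgeSet := by
    rw [← Nat.card_congr φ.mapEdgeSet, Nat.card_eq_fintype_card, SimpleGraph.edgeFinset_card]
  have h2 : 2 ≤ 2 * s * k := by nlinarith
  have hpos : 0 < n := by omega
  refine transfer φ (main2 k s hk (by omega) H (by rw [Fintype.card_fin]; omega) ?_)
  rw [Fintype.card_fin, hcard]
  have hposR : (0 : ℝ) < n := by exact_mod_cast hpos
  unfold averageDegree at hd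
  rw [hn, le_div_iff₀ hposR] at hd
  have h3 : (((2 * s * k - 2) * n : ℕ) : ℝ) ≤ ((2 * Nat.card G.edgeSet : ℕ) : ℝ) := by
    rw [Nat.cast_mul, Nat.cast_sub h2]
    push_cast
    push_cast at hd
    exact hd
  exact_mod_cast h3

end Pool.Agent.Results.MP_d89fb5_co.DisjointLongCycles
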